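import Pool.Agent.N64.AF.SS

/-!
# K1: nilpotence of the numerical ideal
-/

set_option autoImplicit false

open CategoryTheory Limits MonoidalCategory Module Filter Topology
open Pool.Agent.Y112.SR Pool.Agent.Y112.KD
open Pool.Agent.Y116.MT (tr)
open scoped ENNReal

namespace Pool.Agent.N645.AFK1

open Pool.Agent.N64.AF

universe v u w t x

variable {C : Type u} [Category.{v} C] [Preadditive C] [MonoidalCategory C]
  [MonoidalPreadditive C] [SymmetricCategory C] [RightRigidCategory C]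
  {Λ : Type t} [Field Λ] [CharZero Λ] [Linear Λ C] [MonoidalLinear Λ C]
  {K : Type w} [Field K] [IsAlgClosed K] [Algebra Λ K] {R : SuperRealisation C K}

/-- the adjunction, a linear map -/
noncomputable def cur (Λ : Type t) [Field Λ] [Linear Λ C] [MonoidalLinear Λ C] (Q : C)
    [ExactPairing Q Q] (Y Z : C) : (Y ⊗ Q ⟶ Z) ≃ₗ[Λ] (Y ⟶ Z ⊗ Q) where
  toFun := tensorRightHomEquiv Y Q Q Z
  map_add' := fun a b => by
    simp only [tensorRightHomEquiv, Equiv.coe_fn_mk, MonoidalPreadditive.add_whiskerRight,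
      Preadditive.comp_add]
  map_smul' := fun a b => by
    simp only [tensorRightHomEquiv, Equiv.coe_fn_mk, MonoidalLinear.smul_whiskerRight,
      Linear.comp_smul, RingHom.id_apply]
  invFun := (tensorRightHomEquiv Y Q Q Z).symm
  left_inv := (tensorRightHomEquiv Y Q Q Z).left_inv
  right_inv := (tensorRightHomEquiv Y Q Q Z).right_inv

omit [SymmetricCategory C] [RightRigidCategory C] in
lemma cur_eq (Q : C) [ExactPairing Q Q] {Y Z : C} (f : Y ⊗ Q ⟶ Z) :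
    cur Λ Q Y Z f = ((ρ_ _).inv ≫ (_ ◁ η_ _ _) ≫ (α_ _ _ _).inv) ≫ f ▷ Q := by
  simp only [Category.assoc]
  rfl

lemma numPow_comp {T : C} (k : ℕ) : ∀ {W Y Z : C} (g : W ⟶ Y) {f : Y ⟶ Z}, NumPow T k f →
    NumPow T k (g ≫ f) := by
  induction k with
  | zero => intro W Y Z g f _; trivial
  | succ k ih =>
    rintro W Y Z g f ⟨b, g₀, y, hg, hy, rfl⟩
    exact ⟨b, g ≫ g₀, y, ih g hg, hy, (Category.assoc _ _ _).symm⟩

lemma numPow_whisker (hR : IsReal Λ R) {T : C} (k : ℕ) : ∀ {Y Z : C} {f : Y ⟶ Z}, NumPow T k f →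
    NumPow T k (f ▷ T) := by
  induction k with
  | zero => intro Y Z f _; trivial
  | succ k ih =>
    rintro Y Z f ⟨b, g, y, hg, hy, rfl⟩
    exact ⟨b + 1, g ▷ T, y ▷ T, ih hg, hy.whiskerRight hR T, comp_whiskerRight _ _ _⟩

lemma vanish (hR : IsReal Λ R) {T : C} [ExactPairing T T] {N : ℕ}
    (h0 : ∀ (b : ℕ) (f : tp T 0 ⟶ tp T b), NumPow T N f → f = 0) (a : ℕ) :
    ∀ (b : ℕ) (f : tp T a ⟶ tp T b), NumPow T N f → f = 0 := by
  induction a with
  | zero => exact h0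
  | succ a ih =>
    intro b f hf
    have h1 : cur Λ T (tp T a) (tp T b) f = 0 := by
      apply ih (b + 1)
      rw [cur_eq]
      exact numPow_comp N _ (numPow_whisker hR N hf)
    exact (LinearEquiv.map_eq_zero_iff _).1 h1

lemma fin_hom {T : C} [ExactPairing T T]
    (h0 : ∀ b : ℕ, Module.Finite Λ (tp T 0 ⟶ tp T b)) (a : ℕ) :
    ∀ b : ℕ, Module.Finite Λ (tp T a ⟶ tp T b) := by
  induction a with
  | zero => exact h0
  | succ a ih =>
    intro b
    have h1 : Module.Finite Λ (tp T a ⟶ tp T (b + 1)) := ih (b + 1)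
    exact Module.Finite.equiv (cur Λ T (tp T a) (tp T b)).symm

end Pool.Agent.N645.AFK1

namespace Pool.Agent.N64.AF

open Pool.Agent.N645.AFK1

universe v u w t x

variable {C : Type u} [Category.{v} C] [Preadditive C] [MonoidalCategory C]
  [MonoidalPreadditive C] [SymmetricCategory C] [RightRigidCategory C]
  {Λ : Type t} [Field Λ] [CharZero Λ] [Linear Λ C] [MonoidalLinear Λ C]
  {K : Type w} [Field K] [IsAlgClosed K] [Algebra Λ K] {R : SuperRealisation C K}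

/-- K1: the case of the morphisms from the unit object. -/
theorem hom_nil {T : C} [ExactPairing T T] (h : IsPow Λ R T) {N : ℕ}
    (hN : Tendsto (fun n => ((dimE Λ (𝟙_ C ⟶ tp T n) : ℕ∞) : ℝ≥0∞) / numRank Λ (tp T n)) atTop
      (𝓝 (N : ℝ≥0∞))) :
    0 < N ∧ (∀ a b : ℕ, Module.Finite Λ (tp T a ⟶ tp T b)) ∧
    (∀ (a b : ℕ) (f : tp T a ⟶ tp T b), NumPow T N f → f = 0) ∧
    (N = 1 ↔ ∀ (a b : ℕ) (f : tp T a ⟶ tp T b), NumTriv f → f = 0) := by
  have hN' : Tendsto (fun n => ((dimE Λ ((homF Λ (𝟙_ C)).obj (tp T n)) : ℕ∞) : ℝ≥0∞) /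
      numRank Λ (tp T n)) atTop (𝓝 (N : ℝ≥0∞)) := hN
  obtain ⟨N₀, h1, h2, -⟩ := law h (homF Λ (𝟙_ C))
  have h4 : (N₀ : ℝ≥0∞) = N := tendsto_nhds_unique h1 hN'
  have h5 : N₀ = (N : ℕ∞) := by exact_mod_cast h4
  have hpos : 0 < N := by
    rcases Nat.eq_zero_or_pos N with h0 | h0
    · exfalso
      have h6 : N₀ = 0 := by rw [h5, h0]; rfl
      have h7 : Subsingleton ((homF Λ (𝟙_ C)).obj (tp T 0)) := h2.1 h6 0
      have h8 : Subsingleton (𝟙_ C ⟶ 𝟙_ C) := h7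
      exact E1aux.id_ne_zero R (Subsingleton.elim _ _)
    · exact h0
  obtain ⟨hfin, -⟩ := isFin_of_lim h (homF Λ (𝟙_ C)) hN'
  obtain ⟨-, hst⟩ := structure_thm h (homF Λ (𝟙_ C)) hN'
  have hfin0 : ∀ b : ℕ, Module.Finite Λ (tp T 0 ⟶ tp T b) := fun b => hfin.fin b
  have hvan0 : ∀ (b : ℕ) (f : tp T 0 ⟶ tp T b), NumPow T N f → f = 0 := by
    intro b f hf
    have h6 := hst 0 b f hf
    have h7 : ((homF Λ (𝟙_ C)).map f).hom (𝟙 (𝟙_ C)) = 𝟙 (𝟙_ C) ≫ f := rfl
    rw [h6, Category.id_comp] at h7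
    exact h7.symm
  have hvan := vanish h.real hvan0
  refine ⟨hpos, fin_hom hfin0, hvan, ?_, ?_⟩
  · intro h1 a b f hf
    subst h1
    exact hvan a b f ⟨a, 𝟙 _, f, trivial, hf, (Category.id_comp _).symm⟩
  · intro hall
    have h6 : ∀ n, ((dimE Λ (𝟙_ C ⟶ tp T n) : ℕ∞) : ℝ≥0∞) / numRank Λ (tp T n) = 1 := by
      intro n
      have h7 : numIdeal Λ (𝟙_ C) (tp T n) = ⊥ := by
        rw [eq_bot_iff]
        intro f hf
        exact (Submodule.mem_bot Λ).2 (hall 0 n f hf)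
      have h8 : numRank Λ (tp T n) = finrank Λ (𝟙_ C ⟶ tp T n) := by
        unfold numRank
        rw [h7]
        exact (Submodule.quotEquivOfEqBot ⊥ rfl).finrank_eq
      have h9 : Module.Finite Λ (𝟙_ C ⟶ tp T n) := hfin0 n
      have h10 : 0 < numRank Λ (tp T n) := (numRank_mono h n).1
      rw [dimE_eq, ← h8]
      have h11 : ((numRank Λ (tp T n) : ℕ) : ℝ≥0∞) ≠ 0 := by
        exact_mod_cast h10.ne'
      have h12 : (((numRank Λ (tp T n) : ℕ) : ℕ∞) : ℝ≥0∞) = ((numRank Λ (tp T n) : ℕ) : ℝ≥0∞) := by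
        norm_cast
      rw [h12]
      exact ENNReal.div_self h11 (ENNReal.natCast_ne_top _)
    have h7 : Tendsto (fun n => ((dimE Λ (𝟙_ C ⟶ tp T n) : ℕ∞) : ℝ≥0∞) / numRank Λ (tp T n))
        atTop (𝓝 1) := by
      simp_rw [h6]
      exact tendsto_const_nhds
    have h8 : (N : ℝ≥0∞) = 1 := tendsto_nhds_unique hN h7
    exact_mod_cast h8

end Pool.Agent.N64.AF
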